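import Mathlib

/-!
# The choice of the dimension

Author: helper805.
-/

set_option autoImplicit false

namespace Run7.h805.DR

open Real

lemma twenty_le : (20 : ℝ) ≤ Real.exp 3 := by
  have h := Real.exp_one_gt_d9
  have e : Real.exp 3 = Real.exp 1 * Real.exp 1 * Real.exp 1 := by
    rw [← Real.exp_add, ← Real.exp_add]; norm_num
  rw [e]
  have h0 : (2.7182818 : ℝ) ≤ Real.exp 1 := by linarith
  have h2 : (7.389 : ℝ) ≤ Real.exp 1 * Real.exp 1 := by nlinarith
  nlinarith

lemma one_le_sqrt_log {m : ℕ} (hm : 3 ≤ m) : 1 ≤ √(Real.log m) := by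
  have h : (1 : ℝ) ≤ Real.log m := by
    rw [Real.le_log_iff_exp_le (by positivity)]
    have h1 := Real.exp_one_lt_d9
    have h2 : (3 : ℝ) ≤ m := by exact_mod_cast hm
    linarith
  rw [← Real.sqrt_one]
  exact Real.sqrt_le_sqrt h

/-- the choice `d = ⌈2 √(log m)⌉` -/
lemma bound_opt {m : ℕ} (hm : 3 ≤ m) : ∃ d : ℕ, 1 ≤ d ∧ ∀ r : ℝ, r = (m : ℝ) ^ (1 / (d : ℝ)) →
    (2 * r + 3) ^ d * (12 * d * r ^ 2) ≤ m * Real.exp (5 / 2 * √(Real.log m) + 11) := by
  set s : ℝ := √(Real.log m) with hs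
  have hs1 : 1 ≤ s := one_le_sqrt_log hm
  have hm0 : (0 : ℝ) < m := by exact_mod_cast (by omega : 0 < m)
  have hL : Real.log m = s ^ 2 := by
    rw [hs, Real.sq_sqrt]
    exact Real.log_nonneg (by exact_mod_cast (by omega : 1 ≤ m))
  refine ⟨⌈2 * s⌉₊, Nat.one_le_iff_ne_zero.2 (by
    intro h
    rw [Nat.ceil_eq_zero] at h
    linarith), ?_⟩
  set d : ℕ := ⌈2 * s⌉₊ with hd
  have hd1 : 2 * s ≤ d := Nat.le_ceil _
  have hd2 : (d : ℝ) ≤ 2 * s + 1 := (Nat.ceil_lt_add_one (by linarith)).le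
  have hd0 : (0 : ℝ) < d := by linarith
  intro r hr
  have hr' : r = Real.exp (s ^ 2 / d) := by
    rw [hr, Real.rpow_def_of_pos hm0, hL]
    congr 1
    ring
  have hr0 : 0 < r := by rw [hr']; exact Real.exp_pos _
  have hrd : r ^ d = m := by
    rw [hr', ← Real.exp_nat_mul, mul_div_cancel₀ _ hd0.ne', ← hL, Real.exp_log hm0]
  -- `3 d / (2 r) ≤ 5`
  have h5 : 3 * (d : ℝ) ≤ 10 * r := by
    have h1 : s / 3 ≤ s ^ 2 / d := by
      rw [div_le_div_iff₀ (by norm_num) hd0]
      nlinarith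
    have h2 : Real.exp (s / 3) ≤ r := by rw [hr']; exact Real.exp_le_exp.2 h1
    have h3 : s / 3 ≤ Real.exp (s / 3 - 1) := by
      have := Real.add_one_le_exp (s / 3 - 1)
      linarith
    have h4 : Real.exp (s / 3) = Real.exp 1 * Real.exp (s / 3 - 1) := by
      rw [← Real.exp_add]; congr 1; ring
    have h6 : (2.7 : ℝ) ≤ Real.exp 1 := by
      have := Real.exp_one_gt_d9
      linarith
    have h7 : 2.7 * (s / 3) ≤ Real.exp (s / 3) := by
      rw [h4]
      have : 0 < s / 3 := by positivity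
      exact mul_le_mul h6 h3 this.le (Real.exp_pos _).le
    nlinarith
  have h1 : (2 * r + 3) ^ d ≤ m * Real.exp ((Real.log 2) * d + 5) := by
    have e1 : 2 * r + 3 = 2 * r * (1 + 3 / (2 * r)) := by field_simp
    have e2 : (1 + 3 / (2 * r)) ^ d ≤ Real.exp 5 := by
      calc (1 + 3 / (2 * r)) ^ d ≤ (Real.exp (3 / (2 * r))) ^ d := by
            gcongr
            have := Real.add_one_le_exp (3 / (2 * r))
            linarith
        _ = Real.exp (d * (3 / (2 * r))) := by rw [← Real.exp_nat_mul]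
        _ ≤ Real.exp 5 := by
            apply Real.exp_le_exp.2
            rw [mul_div_assoc', div_le_iff₀ (by positivity)]
            linarith
    have e3 : (2 : ℝ) ^ d = Real.exp (Real.log 2 * d) := by
      rw [mul_comm, Real.exp_nat_mul, Real.exp_log (by norm_num)]
    calc (2 * r + 3) ^ d = 2 ^ d * r ^ d * (1 + 3 / (2 * r)) ^ d := by
          rw [e1, mul_pow, mul_pow]
      _ = Real.exp (Real.log 2 * d) * m * (1 + 3 / (2 * r)) ^ d := by rw [hrd, e3]
      _ ≤ Real.exp (Real.log 2 * d) * m * Real.exp 5 := by gcongr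
      _ = m * Real.exp ((Real.log 2) * d + 5) := by rw [Real.exp_add]; ring
  have h2 : (12 : ℝ) * d * r ^ 2 ≤ Real.exp (3 + (d / 20 + 2) + s) := by
    have e1 : (12 : ℝ) ≤ Real.exp 3 := by linarith [twenty_le]
    have e2 : (d : ℝ) ≤ Real.exp (d / 20 + 2) := by
      have f1 : (d : ℝ) / 20 ≤ Real.exp (d / 20 - 1) := by
        have := Real.add_one_le_exp ((d : ℝ) / 20 - 1)
        linarith
      have f2 : Real.exp ((d : ℝ) / 20 + 2) = Real.exp 3 * Real.exp (d / 20 - 1) := by
        rw [← Real.exp_add]; congr 1; ring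
      rw [f2]
      have f3 : (0 : ℝ) < d / 20 := by positivity
      calc (d : ℝ) = 20 * (d / 20) := by ring
        _ ≤ Real.exp 3 * Real.exp (d / 20 - 1) :=
            mul_le_mul twenty_le f1 f3.le (Real.exp_pos _).le
    have e3 : r ^ 2 ≤ Real.exp s := by
      rw [hr', ← Real.exp_nat_mul]
      apply Real.exp_le_exp.2
      push_cast
      rw [mul_div_assoc', div_le_iff₀ hd0]
      nlinarith
    rw [Real.exp_add, Real.exp_add 3]
    gcongr
  have hlog2 : Real.log 2 < 0.6931471808 := Real.log_two_lt_d9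
  calc (2 * r + 3) ^ d * (12 * d * r ^ 2)
      ≤ (m * Real.exp ((Real.log 2) * d + 5)) * Real.exp (3 + (d / 20 + 2) + s) := by
        gcongr
    _ = m * Real.exp ((Real.log 2) * d + 5 + (3 + (d / 20 + 2) + s)) := by
        rw [mul_assoc, ← Real.exp_add]
    _ ≤ m * Real.exp (5 / 2 * s + 11) := by
        apply mul_le_mul_of_nonneg_left _ hm0.le
        apply Real.exp_le_exp.2
        have : Real.log 2 * d ≤ 0.6931471808 * (2 * s + 1) := by
          calc Real.log 2 * d ≤ 0.6931471808 * d := by gcongr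
            _ ≤ 0.6931471808 * (2 * s + 1) := by gcongr
        linarith

end Run7.h805.DR
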